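import Pool.Agent.H333.Reg.Suff

/-!
Necessity: if `⟨a, G⟩` is regular for all `a` of rank `n - k`, then every `(k+1)`-set contains a
member of every `G`-orbit of `k`-sets, and, by Ramsey's theorem, `G` is `k`-homogeneous if `n` is
large enough.
-/

namespace Pool.Agent.H333.Reg

open Function

/-- An upper bound for the Ramsey number of `k`-uniform hypergraphs: every `2`-colouring of the
`k`-subsets of a set with `ramseyBound k a b` elements has a homogeneous set with `a` elements of
the first colour or with `b` elements of the second one. -/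
def ramseyBound : ℕ → ℕ → ℕ → ℕ
  | 0, a, b => max a b
  | _ + 1, 0, _ => 0
  | _ + 1, _ + 1, 0 => 0
  | k + 1, a + 1, b + 1 =>
    ramseyBound k (ramseyBound (k + 1) a (b + 1)) (ramseyBound (k + 1) (a + 1) b) + 1

theorem ramsey {α : Type} [DecidableEq α] (k : ℕ) : ∀ (a b : ℕ) (s : Finset α)
    (c : Finset α → Prop), ramseyBound k a b ≤ s.card →
      (∃ t ⊆ s, t.card = a ∧ ∀ u ⊆ t, u.card = k → c u) ∨
      (∃ t ⊆ s, t.card = b ∧ ∀ u ⊆ t, u.card = k → ¬ c u) := by
  induction k with
  | zero =>
    intro a b s c hs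
    rw [ramseyBound] at hs
    by_cases h : c ∅
    · left
      obtain ⟨t, hts, ht⟩ := Finset.exists_subset_card_eq (le_trans (le_max_left a b) hs)
      exact ⟨t, hts, ht, fun u _ hu => by rw [Finset.card_eq_zero.mp hu]; exact h⟩
    · right
      obtain ⟨t, hts, ht⟩ := Finset.exists_subset_card_eq (le_trans (le_max_right a b) hs)
      exact ⟨t, hts, ht, fun u _ hu => by rw [Finset.card_eq_zero.mp hu]; exact h⟩
  | succ k ihk =>
    intro a
    induction a with
    | zero =>
      intro b s c _
      left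
      refine ⟨∅, Finset.empty_subset s, rfl, fun u hu hu' => ?_⟩
      rw [Finset.subset_empty.mp hu] at hu'
      simp at hu'
    | succ a iha =>
      intro b
      induction b with
      | zero =>
        intro s c _
        right
        refine ⟨∅, Finset.empty_subset s, rfl, fun u hu hu' => ?_⟩
        rw [Finset.subset_empty.mp hu] at hu'
        simp at hu'
      | succ b ihb =>
        intro s c hs
        rw [ramseyBound] at hs
        obtain ⟨x, hx⟩ : s.Nonempty := by
          rw [← Finset.card_pos]; omega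
        have hs' : ramseyBound k (ramseyBound (k + 1) a (b + 1)) (ramseyBound (k + 1) (a + 1) b) ≤
            (s.erase x).card := by
          rw [Finset.card_erase_of_mem hx]; omega
        have hsub : s.erase x ⊆ s := Finset.erase_subset x s
        -- common extension argument
        have ext : ∀ (P : Finset α → Prop) (t t₁ : Finset α), t ⊆ t₁ → t₁ ⊆ s.erase x →
            (∀ u ⊆ t₁, u.card = k → P (insert x u)) → (∀ u ⊆ t, u.card = k + 1 → P u) →
            ∀ u ⊆ insert x t, u.card = k + 1 → P u := by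
          intro P t t₁ htt₁ ht₁ h1 h2 u hu hucard
          by_cases hxu : x ∈ u
          · have h3 : u.erase x ⊆ t₁ := by
              intro y hy
              rw [Finset.mem_erase] at hy
              rcases Finset.mem_insert.mp (hu hy.2) with h | h
              · exact absurd h hy.1
              · exact htt₁ h
            have h4 := h1 _ h3 (by rw [Finset.card_erase_of_mem hxu, hucard]; rfl)
            rwa [Finset.insert_erase hxu] at h4
          · refine h2 u ?_ hucard
            intro y hy
            rcases Finset.mem_insert.mp (hu hy) with h | h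
            · exact absurd (h ▸ hy) hxu
            · exact h
        have hxt : ∀ t : Finset α, t ⊆ s.erase x → x ∉ t := fun t ht hxt =>
          (Finset.mem_erase.mp (ht hxt)).1 rfl
        rcases ihk _ _ (s.erase x) (fun u => c (insert x u)) hs' with
          ⟨t₁, ht₁, hc₁, h₁⟩ | ⟨t₁, ht₁, hc₁, h₁⟩
        · rcases iha (b + 1) t₁ c (le_of_eq hc₁.symm) with ⟨t, ht, hc, h⟩ | ⟨t, ht, hc, h⟩
          · left
            refine ⟨insert x t, ?_, ?_, ext c t t₁ ht ht₁ h₁ h⟩
            · intro y hy
              rcases Finset.mem_insert.mp hy with h' | h'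
              · rw [h']; exact hx
              · exact hsub (ht₁ (ht h'))
            · rw [Finset.card_insert_of_notMem (hxt t (ht.trans ht₁)), hc]
          · right
            exact ⟨t, (ht.trans ht₁).trans hsub, hc, h⟩
        · rcases ihb t₁ c (le_of_eq hc₁.symm) with ⟨t, ht, hc, h⟩ | ⟨t, ht, hc, h⟩
          · left
            exact ⟨t, (ht.trans ht₁).trans hsub, hc, h⟩
          · right
            refine ⟨insert x t, ?_, ?_, ext (fun u => ¬ c u) t t₁ ht ht₁ h₁ h⟩
            · intro y hy
              rcases Finset.mem_insert.mp hy with h' | h'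
              · rw [h']; exact hx
              · exact hsub (ht₁ (ht h'))
            · rw [Finset.card_insert_of_notMem (hxt t (ht.trans ht₁)), hc]

variable {n k : ℕ}

/-- Elements of `⟨a, G⟩` lie in `G` or start with `a g`. -/
theorem mem_semi_cases {a : Function.End (Fin n)} {G : Subgroup (Equiv.Perm (Fin n))}
    {x : Function.End (Fin n)} (hx : x ∈ semi a G) :
    (∃ g ∈ G, ∀ i, x i = g i) ∨
      ∃ (z : Function.End (Fin n)) (g : Equiv.Perm (Fin n)), g ∈ G ∧ ∀ i, x i = z (a (g i)) := by
  induction hx using Subsemigroup.closure_induction with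
  | mem x hx =>
    rcases hx with rfl | ⟨g, hg, hxg⟩
    · exact Or.inr ⟨fun i => i, 1, G.one_mem, fun i => rfl⟩
    · exact Or.inl ⟨g, hg, hxg⟩
  | mul x y _ _ ihx ihy =>
    rcases ihy with ⟨g, hg, hyg⟩ | ⟨z, g, hg, hyg⟩
    · rcases ihx with ⟨h, hh, hxh⟩ | ⟨z, h, hh, hxh⟩
      · left
        refine ⟨h * g, G.mul_mem hh hg, fun i => ?_⟩
        change x (y i) = h (g i)
        rw [hxh, hyg]
      · right
        refine ⟨z, h * g, G.mul_mem hh hg, fun i => ?_⟩
        change x (y i) = z (a (h (g i)))
        rw [hxh, hyg]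
    · right
      refine ⟨fun i => x (z i), g, hg, fun i => ?_⟩
      change x (y i) = x (z (a (g i)))
      rw [hyg]

/-- If `⟨a, G⟩` is regular for all `a` of rank `n - k`, then every `(k+1)`-set contains an image of
every `k`-set. -/
theorem exists_image_subset {G : Subgroup (Equiv.Perm (Fin n))} (hG : AllRegular k G)
    {A K : Finset (Fin n)} (hA : A.card = k) (hK : K.card = k + 1) :
    ∃ g ∈ G, A.image (fun i => g i) ⊆ K := by
  classical
  have hKn : k + 1 ≤ n := by
    have := Finset.card_le_univ K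
    rw [hK, Fintype.card_fin] at this
    exact this
  obtain ⟨κ, hκ⟩ : K.Nonempty := by rw [← Finset.card_pos, hK]; omega
  let L : Finset (Fin n) := insert κ Kᶜ
  have hL : L.card = n - k := by
    rw [Finset.card_insert_of_notMem (by simpa using hκ), Finset.card_compl, Fintype.card_fin, hK]
    omega
  have hAc : (Aᶜ : Finset (Fin n)).card = n - k := by
    rw [Finset.card_compl, Fintype.card_fin, hA]
  let e : L ≃ (Aᶜ : Finset (Fin n)) := Finset.equivOfCardEq (hL.trans hAc.symm)
  have hr : ∀ v : Fin n, (if v ∈ K then κ else v) ∈ L := by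
    intro v
    by_cases hv : v ∈ K
    · rw [if_pos hv]; exact Finset.mem_insert_self _ _
    · rw [if_neg hv]; exact Finset.mem_insert_of_mem (Finset.mem_compl.mpr hv)
  let a : Function.End (Fin n) := fun v => (e ⟨if v ∈ K then κ else v, hr v⟩ : Fin n)
  have ha1 : ∀ v, a v ∈ Aᶜ := fun v => (e ⟨if v ∈ K then κ else v, hr v⟩).2
  have ha2 : ∀ w ∈ Aᶜ, ∃ v, a v = w := by
    intro w hw
    obtain ⟨⟨l, hl⟩, hlw⟩ := e.surjective ⟨w, hw⟩
    refine ⟨l, ?_⟩
    have h1 : (if l ∈ K then κ else l) = l := by
      by_cases hlK : l ∈ K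
      · rw [if_pos hlK]
        rcases Finset.mem_insert.mp hl with h | h
        · exact h.symm
        · exact absurd hlK (Finset.mem_compl.mp h)
      · rw [if_neg hlK]
    have h2 : (⟨if l ∈ K then κ else l, hr l⟩ : L) = ⟨l, hl⟩ := Subtype.ext h1
    change ((e ⟨if l ∈ K then κ else l, hr l⟩ : (Aᶜ : Finset (Fin n))) : Fin n) = w
    rw [h2, hlw]
  have haK : ∀ v ∈ K, ∀ w ∈ K, a v = a w := by
    intro v hv w hw
    have h1 : (⟨if v ∈ K then κ else v, hr v⟩ : L) = ⟨if w ∈ K then κ else w, hr w⟩ :=
      Subtype.ext (by simp only [if_pos hv, if_pos hw])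
    change ((e ⟨if v ∈ K then κ else v, hr v⟩ : (Aᶜ : Finset (Fin n))) : Fin n) =
      ((e ⟨if w ∈ K then κ else w, hr w⟩ : (Aᶜ : Finset (Fin n))) : Fin n)
    rw [h1]
  have hrange : (Finset.univ.image fun i => a i) = Aᶜ := by
    ext w
    rw [Finset.mem_image]
    constructor
    · rintro ⟨v, -, rfl⟩
      exact ha1 v
    · intro hw
      obtain ⟨v, hv⟩ := ha2 w hw
      exact ⟨v, Finset.mem_univ v, hv⟩
  obtain ⟨y, hy, hay⟩ := hG a (by rw [hrange, hAc]) a (a_mem a G)
  -- injectivity of `a` on `g (range a)`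
  obtain ⟨g, hg, hinj⟩ : ∃ g ∈ G, ∀ p q : Fin n, a (g (a p)) = a (g (a q)) → a p = a q := by
    have h0 : ∀ p, a p = a (y (a p)) := fun p => congrFun hay p
    rcases mem_semi_cases hy with ⟨g, hg, h⟩ | ⟨z, g, hg, h⟩
    · refine ⟨g, hg, fun p q hpq => ?_⟩
      rw [h0 p, h0 q, h, h, hpq]
    · refine ⟨g, hg, fun p q hpq => ?_⟩
      rw [h0 p, h0 q, h, h, hpq]
  refine ⟨g, hg, ?_⟩
  -- counting
  have h1 : ((Aᶜ.image fun i => g i) ∩ K).card ≤ 1 := by
    rw [Finset.card_le_one]
    intro u hu v hv
    rw [Finset.mem_inter, Finset.mem_image] at hu hv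
    obtain ⟨⟨u', hu', rfl⟩, huK⟩ := hu
    obtain ⟨⟨v', hv', rfl⟩, hvK⟩ := hv
    obtain ⟨p, rfl⟩ := ha2 u' hu'
    obtain ⟨q, rfl⟩ := ha2 v' hv'
    rw [hinj p q (haK _ huK _ hvK)]
  have h2 : K ⊆ ((A.image fun i => g i) ∩ K) ∪ ((Aᶜ.image fun i => g i) ∩ K) := by
    intro u hu
    by_cases h : g.symm u ∈ A
    · exact Finset.mem_union_left _ (Finset.mem_inter.mpr
        ⟨Finset.mem_image.mpr ⟨_, h, g.apply_symm_apply u⟩, hu⟩)
    · exact Finset.mem_union_right _ (Finset.mem_inter.mpr
        ⟨Finset.mem_image.mpr ⟨_, Finset.mem_compl.mpr h, g.apply_symm_apply u⟩, hu⟩)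
  have h3 : (A.image fun i => g i).card = k := by
    rw [Finset.card_image_of_injective _ g.injective, hA]
  have h4 := (Finset.card_le_card h2).trans (Finset.card_union_le _ _)
  have h5 : (A.image fun i => g i) ∩ K = A.image fun i => g i := by
    apply Finset.eq_of_subset_of_card_le Finset.inter_subset_left
    omega
  exact Finset.inter_eq_left.mp h5

/-- **Necessity.** -/
theorem kHomogeneous_of_allRegular (hn : ramseyBound k (k + 1) (k + 1) ≤ n)
    {G : Subgroup (Equiv.Perm (Fin n))} (hG : AllRegular k G) : KHomogeneous k G := by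
  classical
  intro A B hA hB
  by_contra hcon
  rcases ramsey k (k + 1) (k + 1) (Finset.univ : Finset (Fin n))
      (fun u => ∃ g ∈ G, A.image g = u) (by rw [Finset.card_univ, Fintype.card_fin]; exact hn) with
    ⟨K, -, hK, h⟩ | ⟨K, -, hK, h⟩
  · obtain ⟨g, hg, hgK⟩ := exists_image_subset hG hB hK
    obtain ⟨f, hf, hfA⟩ := h _ hgK (by rw [Finset.card_image_of_injective _ g.injective, hB])
    apply hcon
    refine ⟨g⁻¹ * f, G.mul_mem (G.inv_mem hg) hf, ?_⟩
    ext y
    rw [Finset.mem_image]
    have h1 : ∀ z, z ∈ A.image f ↔ z ∈ B.image (fun i => g i) := fun z => by rw [hfA]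
    constructor
    · rintro ⟨x, hx, rfl⟩
      have := (h1 (f x)).mp (Finset.mem_image_of_mem f hx)
      obtain ⟨b, hb, hbx⟩ := Finset.mem_image.mp this
      have h2 : (g⁻¹ * f) x = b := by
        change g.symm (f x) = b
        rw [← hbx, g.symm_apply_apply]
      rw [h2]; exact hb
    · intro hy
      have := (h1 (g y)).mpr (Finset.mem_image_of_mem (fun i => g i) hy)
      obtain ⟨x, hx, hxy⟩ := Finset.mem_image.mp this
      refine ⟨x, hx, ?_⟩
      change g.symm (f x) = y
      rw [hxy, g.symm_apply_apply]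
  · obtain ⟨g, hg, hgK⟩ := exists_image_subset hG hA hK
    exact h _ hgK (by rw [Finset.card_image_of_injective _ g.injective, hA]) ⟨g, hg, rfl⟩

end Pool.Agent.H333.Reg
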