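import Mathlib

/-!
Sufficiency: if `G` is `k`-homogeneous and `a` has rank `n - k`, then `⟨a, G⟩` is regular.
-/

namespace Pool.Agent.H333.Reg

open Function

/-- The subsemigroup of the full transformation monoid on `Fin n` generated by the map `a` and the
(maps given by the) elements of `G`. -/
def semi {n : ℕ} (a : Function.End (Fin n)) (G : Subgroup (Equiv.Perm (Fin n))) :
    Subsemigroup (Function.End (Fin n)) :=
  Subsemigroup.closure (insert a {f | ∃ g ∈ G, ∀ i, f i = g i})

/-- `G` is `k`-homogeneous: it is transitive on the `k`-element subsets. -/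
def KHomogeneous {n : ℕ} (k : ℕ) (G : Subgroup (Equiv.Perm (Fin n))) : Prop :=
  ∀ A B : Finset (Fin n), A.card = k → B.card = k → ∃ g ∈ G, A.image g = B

/-- For every map `a` of rank `n - k` the semigroup `⟨a, G⟩` is regular. -/
def AllRegular {n : ℕ} (k : ℕ) (G : Subgroup (Equiv.Perm (Fin n))) : Prop :=
  ∀ a : Function.End (Fin n), (Finset.univ.image fun i => a i).card = n - k →
    ∀ x ∈ semi a G, ∃ y ∈ semi a G, x = x * y * x

variable {n k : ℕ}

/-- a permutation as an element of the full transformation monoid -/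
def toE (g : Equiv.Perm (Fin n)) : Function.End (Fin n) := fun i => g i

theorem a_mem (a : Function.End (Fin n)) (G : Subgroup (Equiv.Perm (Fin n))) :
    a ∈ semi a G :=
  Subsemigroup.subset_closure (Set.mem_insert _ _)

theorem g_mem (a : Function.End (Fin n)) (G : Subgroup (Equiv.Perm (Fin n)))
    {g : Equiv.Perm (Fin n)} (hg : g ∈ G) : toE g ∈ semi a G :=
  Subsemigroup.subset_closure (Set.mem_insert_of_mem _ ⟨g, hg, fun _ => rfl⟩)

/-- complements: a `k`-homogeneous group moves any `(n-k)`-set to any other. -/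
theorem exists_image_eq (hk : k ≤ n) {G : Subgroup (Equiv.Perm (Fin n))} (hG : KHomogeneous k G)
    {A B : Finset (Fin n)} (hA : A.card = n - k) (hB : B.card = n - k) :
    ∃ g ∈ G, A.image g = B := by
  classical
  obtain ⟨g, hg, h⟩ := hG Aᶜ Bᶜ (by rw [Finset.card_compl, Fintype.card_fin, hA]; omega)
    (by rw [Finset.card_compl, Fintype.card_fin, hB]; omega)
  refine ⟨g, hg, ?_⟩
  ext y
  have h1 : y ∈ Aᶜ.image g ↔ y ∈ Bᶜ := by rw [h]
  rw [Finset.mem_image, Finset.mem_compl] at h1
  rw [Finset.mem_image]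
  constructor
  · rintro ⟨x, hx, rfl⟩
    by_contra hy
    obtain ⟨x', hx', he⟩ := h1.mpr hy
    have := g.injective he
    subst this
    exact (Finset.mem_compl.mp hx') hx
  · intro hy
    refine ⟨g.symm y, ?_, g.apply_symm_apply y⟩
    by_contra hx
    exact (h1.mp ⟨g.symm y, Finset.mem_compl.mpr hx, g.apply_symm_apply y⟩) hy

/-- Key step: if `x` is regular in `⟨a, G⟩`, so is `a ∘ x`. -/
theorem step (hk : k ≤ n) {G : Subgroup (Equiv.Perm (Fin n))} (hG : KHomogeneous k G)
    {a : Function.End (Fin n)} (ha : (Finset.univ.image fun i => a i).card = n - k)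
    {x c : Function.End (Fin n)} (hc : c ∈ semi a G) (hx : x = x * c * x) :
    ∃ y ∈ semi a G, a * x = a * x * y * (a * x) := by
  classical
  -- representatives
  let rep : Fin n → Fin n := fun u =>
    if h : ∃ z, a (x z) = u then x h.choose else if h' : ∃ z, a z = u then h'.choose else u
  have hrep : ∀ u, (∃ z, a z = u) → a (rep u) = u := by
    intro u hu
    by_cases h : ∃ z, a (x z) = u
    · simp only [rep, dif_pos h]
      exact h.choose_spec
    · simp only [rep, dif_neg h, dif_pos hu]
      exact hu.choose_spec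
  have hrepx : ∀ z, ∃ z', rep (a (x z)) = x z' := by
    intro z
    have h : ∃ z', a (x z') = a (x z) := ⟨z, rfl⟩
    exact ⟨h.choose, by simp only [rep, dif_pos h]⟩
  let Y : Finset (Fin n) := (Finset.univ.image fun i => a i).image rep
  have hinj : Set.InjOn rep ((Finset.univ.image fun i => a i : Finset (Fin n)) : Set (Fin n)) := by
    intro u hu v hv huv
    rw [Finset.mem_coe, Finset.mem_image] at hu hv
    obtain ⟨u', -, hu'⟩ := hu
    obtain ⟨v', -, hv'⟩ := hv
    rw [← hrep u ⟨u', hu'⟩, ← hrep v ⟨v', hv'⟩, huv]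
  have hY : Y.card = n - k := by
    rw [Finset.card_image_of_injOn hinj, ha]
  obtain ⟨g, hg, hgY⟩ := exists_image_eq hk hG ha hY
  let t : Fin n → Fin n := fun v => g (a v)
  have htY : ∀ v, t v ∈ Y := by
    intro v
    rw [← hgY]
    exact Finset.mem_image_of_mem _ (Finset.mem_image_of_mem _ (Finset.mem_univ v))
  have hainj : ∀ u ∈ Y, ∀ v ∈ Y, a u = a v → u = v := by
    intro u hu v hv huv
    rw [Finset.mem_image] at hu hv
    obtain ⟨u', hu', rfl⟩ := hu
    obtain ⟨v', hv', rfl⟩ := hv
    rw [Finset.mem_image] at hu' hv'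
    obtain ⟨p, -, hp⟩ := hu'
    obtain ⟨q, -, hq⟩ := hv'
    rw [hrep u' ⟨p, hp⟩, hrep v' ⟨q, hq⟩] at huv
    exact congrArg rep huv
  let s : Y → Y := fun y => ⟨t y, htY y⟩
  have hs : Function.Bijective s := by
    rw [← Finite.injective_iff_bijective]
    intro u v huv
    have h1 : g (a u) = g (a v) := congrArg Subtype.val huv
    exact Subtype.ext (hainj u u.2 v v.2 (g.injective h1))
  let σ : Equiv.Perm Y := Equiv.ofBijective s hs
  have hσ : ∀ (j : ℕ) (y : Y), (((σ ^ j) y : Y) : Fin n) = t^[j] y := by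
    intro j
    induction j with
    | zero => intro y; rfl
    | succ j ih =>
      intro y
      rw [pow_succ, Equiv.Perm.mul_apply, ih, Function.iterate_succ_apply]
      rfl
  have hm : 0 < orderOf σ := orderOf_pos σ
  obtain ⟨m, hm'⟩ : ∃ m, orderOf σ = m + 1 := ⟨orderOf σ - 1, by omega⟩
  have hid : ∀ y ∈ Y, t^[m + 1] y = y := by
    intro y hy
    have := hσ (m + 1) ⟨y, hy⟩
    rw [← hm', pow_orderOf_eq_one] at this
    rw [← hm']
    exact this.symm
  -- the element `w`
  let w : ℕ → Function.End (Fin n) := fun j v => t^[j] (g v)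
  have hw : ∀ j : ℕ, w j ∈ semi a G := by
    intro j
    induction j with
    | zero => exact g_mem a G hg
    | succ j ih =>
      have h1 := (semi a G).mul_mem (g_mem a G hg) ((semi a G).mul_mem (a_mem a G) ih)
      have h2 : w (j + 1) = toE g * (a * w j) := by
        funext v
        change t^[j + 1] (g v) = t (t^[j] (g v))
        rw [Function.iterate_succ_apply']
      rw [h2]
      exact h1
  refine ⟨c * w m, (semi a G).mul_mem hc (hw m), ?_⟩
  funext v
  -- `w (a v') = rep (a v')`
  have hwa : ∀ v', t^[m] (g (a v')) = rep (a v') := by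
    intro v'
    have h1 : a (rep (a v')) = a v' := hrep _ ⟨v', rfl⟩
    have h2 : t v' = t (rep (a v')) := by
      simp only [t, h1]
    have h3 : rep (a v') ∈ Y :=
      Finset.mem_image_of_mem _ (Finset.mem_image_of_mem _ (Finset.mem_univ v'))
    have h4 := hid _ h3
    rw [Function.iterate_succ_apply, ← h2] at h4
    exact h4
  change a (x v) = a (x (c (t^[m] (g (a (x v))))))
  rw [hwa]
  obtain ⟨z', hz'⟩ := hrepx v
  rw [hz']
  have h5 : x (c (x z')) = x z' := (congrFun hx z').symm
  rw [h5, ← hz', hrep _ ⟨x v, rfl⟩]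

/-- **Sufficiency.** -/
theorem allRegular_of_kHomogeneous (hk : k ≤ n) {G : Subgroup (Equiv.Perm (Fin n))}
    (hG : KHomogeneous k G) : AllRegular k G := by
  intro a ha
  have key : ∀ x ∈ semi a G, ∀ r ∈ semi a G, (∃ y ∈ semi a G, r = r * y * r) →
      ∃ y ∈ semi a G, x * r = x * r * y * (x * r) := by
    intro x hx
    induction hx using Subsemigroup.closure_induction with
    | mem x hx =>
      rintro r hr ⟨y, hy, hry⟩
      rcases hx with rfl | ⟨g, hg, hxg⟩
      · exact step hk hG ha hy hry
      · refine ⟨y * toE g⁻¹, (semi a G).mul_mem hy (g_mem a G (G.inv_mem hg)), ?_⟩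
        funext v
        change x (r v) = x (r (y (g.symm (x (r v)))))
        rw [hxg, hxg, g.symm_apply_apply]
        exact congrArg g (congrFun hry v)
    | mul x y hxm hym ihx ihy =>
      rintro r hr hreg
      have h1 := ihy r hr hreg
      have h2 := ihx (y * r) ((semi a G).mul_mem hym hr) h1
      rw [mul_assoc x y r]
      exact h2
  intro x hx
  have h2 : (1 : Function.End (Fin n)) ∈ semi a G := g_mem a G G.one_mem
  obtain ⟨y, hy, h⟩ := key x hx 1 h2 ⟨1, h2, by simp⟩
  rw [mul_one] at h
  exact ⟨y, hy, h⟩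

end Pool.Agent.H333.Reg
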